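import Pool.Agent.W389.CT.NoQC
import Pool.Agent.W389.CT.CTm

/-!
# Cannon-Thurston maps for hyperbolic normal subgroups of hierarchically hyperbolic groups

There is a hierarchically hyperbolic group `G` which is not hyperbolic, with an infinite hyperbolic
normal subgroup `H` of infinite index, such that the Cannon-Thurston map for `(H, G)` exists, and
`H` is not hierarchically quasiconvex for any hierarchically hyperbolic group structure on `G`.

The example: `G` is the wreath product of `ℤ` and `ℤ/3` and `H` is its centre.
-/

set_option autoImplicit false

namespace Pool.Agent.Results.MP_e527be_al.CannonThurstonNotHQC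

open Pool.Agent.Helper548.HB Pool.Agent.W389.CT

/-- There are a group `G` with a finite generating set `S` and a hierarchically hyperbolic group
structure `𝔊`, and a normal subgroup `H`, infinite and of infinite index, hyperbolic, with a finite
generating set `T` contained in `S`, such that `G` is not hyperbolic (for any finite generating
set), the Cannon-Thurston map exists for `H` in `G` with the structure `𝔊`, and `H` is not
hierarchically quasiconvex for any hierarchically hyperbolic group structure on `G` (with respect
to any finite generating set). -/
theorem result : ∃ (G : Type) (_ : Group G) (S : Finset G) (𝔊 : HHGs G S) (H : Subgroup G)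
    (T : Finset H) (hT : Subgroup.closure (T : Set H) = ⊤),
    Subgroup.closure (S : Set G) = ⊤ ∧ (∀ h ∈ T, (h : G) ∈ S) ∧
    H.Normal ∧ Infinite H ∧ H.index = 0 ∧ HypCayley T ∧
    (∀ S' : Finset G, Subgroup.closure (S' : Set G) = ⊤ → ¬ HypCayley S') ∧
    CTExists 𝔊 H T hT ∧
    ∀ S' : Finset G, Subgroup.closure (S' : Set G) = ⊤ → ∀ 𝔊' : HHGs G S', ¬ HQC 𝔊' (H : Set G) := by
  refine ⟨Gr, inferInstance, gens, str, HH, TT, TT_top, gens_top, ?_, HH_normal, HH_infinite,
    HH_index, hyp_TT, not_hyp, ct, fun S' hS' 𝔊' => not_HQC 𝔊' hS'⟩
  intro h hh
  have : h = zz := by simpa [TT] using hh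
  rw [this]
  exact z_mem

end Pool.Agent.Results.MP_e527be_al.CannonThurstonNotHQC
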